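import Mathlib

set_option autoImplicit false

open Polynomial Filter Topology
open scoped ComplexConjugate

/-!
Interface for the structure theorem on the sector constants `c_θ` of Rhin and Smyth (MP_ce2d68_nt).
Proofs are in BLUEPRINT.md.
-/

namespace Pool.Agent.Work.MP_ce2d68_st

/-! ### Integer polynomials -/

/-- the polynomial over `ℂ` -/
noncomputable def cp (P : ℤ[X]) : ℂ[X] := P.map (Int.castRingHom ℂ)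

/-- complex values of an integer polynomial -/
noncomputable def ev (P : ℤ[X]) (z : ℂ) : ℂ := (cp P).eval z

/-- complex values of a real polynomial -/
noncomputable def rv (f : ℝ[X]) (z : ℂ) : ℂ := (f.map (algebraMap ℝ ℂ)).eval z

/-- the set of complex roots -/
noncomputable def rts (P : ℤ[X]) : Finset ℂ := (cp P).roots.toFinset

/-- Mahler measure -/
noncomputable def MM (P : ℤ[X]) : ℝ := (cp P).mahlerMeasure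

/-- `log M(P) / deg P` -/
noncomputable def lv (P : ℤ[X]) : ℝ := Real.log (MM P) / P.natDegree

/-- minimal polynomials of the nonzero noncyclotomic algebraic integers with all conjugates in the
sector `|arg z| ≤ θ` -/
def Adm (θ : ℝ) (P : ℤ[X]) : Prop :=
  P.Monic ∧ Irreducible P ∧ P ≠ X ∧ (∀ z ∈ rts P, |z.arg| ≤ θ) ∧ 1 < MM P

/-- there are admissible polynomials of arbitrarily large degree with `log M / deg ≤ x + ε` -/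
def Ach (θ x : ℝ) : Prop :=
  ∀ ε : ℝ, 0 < ε → ∀ D : ℕ, ∃ F : ℤ[X], Adm θ F ∧ D ≤ F.natDegree ∧ lv F ≤ x + ε

/-- logarithm of the essential constant -/
noncomputable def lec (θ : ℝ) : ℝ := sInf {x : ℝ | Ach θ x}

/-- circle average over the unit circle -/
noncomputable def ca (f : ℂ → ℝ) : ℝ := Real.circleAverage f 0 1

def Sym (T : ℂ → ℝ) : Prop := ∀ z, T (conj z) = T z

def RealP (p : ℂ[X]) : Prop := p.map (starRingEnd ℂ) = p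

/-- families of distinct monic irreducible polynomials -/
def Fam (Ps : Finset ℤ[X]) : Prop := ∀ P ∈ Ps, P.Monic ∧ Irreducible P

/-- the product of a family -/
noncomputable def pr (Ps : Finset ℤ[X]) : ℤ[X] := ∏ P ∈ Ps, P

/-- the roots of a family -/
noncomputable def rs (Ps : Finset ℤ[X]) : Finset ℂ := Ps.biUnion rts

/-- the degree of a family -/
noncomputable def dg (Ps : Finset ℤ[X]) : ℕ := ∑ P ∈ Ps, P.natDegree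

/-- `BAS`: basic facts -/
def Stmt_BAS : Prop :=
  ∀ P : ℤ[X], P.Monic → Irreducible P →
    0 < P.natDegree ∧ cp P = ∏ a ∈ rts P, (X - C a) ∧ (rts P).card = P.natDegree ∧
    (∀ a ∈ rts P, conj a ∈ rts P) ∧ Real.log (MM P) = ∑ a ∈ rts P, Real.posLog ‖a‖

/-- `BASF`: basic facts on families -/
def Stmt_BASF : Prop :=
  ∀ Ps : Finset ℤ[X], Fam Ps →
    (pr Ps).Monic ∧ (pr Ps).natDegree = dg Ps ∧ cp (pr Ps) = ∏ a ∈ rs Ps, (X - C a) ∧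
    (rs Ps).card = dg Ps ∧ (∀ a ∈ rs Ps, conj a ∈ rs Ps) ∧
    (∀ P ∈ Ps, ∀ Q ∈ Ps, P ≠ Q → Disjoint (rts P) (rts Q))

/-- `RES`: resultants are integers -/
def Stmt_RES : Prop :=
  ∀ P Q : ℤ[X], P.Monic → Irreducible P → (∀ a ∈ rts P, ev Q a ≠ 0) →
    1 ≤ ∏ a ∈ rts P, ‖ev Q a‖

/-- `DSC`: discriminants and resultants are nonzero integers -/
def Stmt_DSC : Prop :=
  ∀ Ps : Finset ℤ[X], Fam Ps → ∀ P ∈ Ps, 1 ≤ ∏ a ∈ rts P, ∏ b ∈ (rs Ps).erase a, ‖a - b‖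

/-! ### Part A: the existence theorem -/

/-- `MINK`: elements of `ℤ[X]/(P)` of prescribed size at all places (pigeonhole principle) -/
def Stmt_MINK : Prop :=
  ∀ P : ℤ[X], P.Monic → Irreducible P → ∃ c : ℝ, 0 < c ∧ ∀ t : ℂ → ℝ, Sym t →
    ∑ a ∈ rts P, t a = 0 → ∃ w : ℤ[X], ∀ a ∈ rts P, ev w a ≠ 0 ∧ ‖ev w a‖ ≤ c * Real.exp (t a)

/-- `COV`: weighted rounding in `ℤ[X]/(P)` -/
def Stmt_COV : Prop :=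
  ∀ P : ℤ[X], P.Monic → Irreducible P → ∃ c : ℝ, 0 < c ∧ ∀ t : ℂ → ℝ, Sym t →
    ∑ a ∈ rts P, t a = 0 → ∀ f : ℝ[X], ∃ g : ℤ[X], g.degree < P.degree ∧
      ∀ a ∈ rts P, ‖rv f a - 4 * ev g a‖ ≤ c * Real.exp (t a)

/-- `COVF`: weighted rounding for families -/
def Stmt_COVF : Prop :=
  ∀ Ps : Finset ℤ[X], Fam Ps → ∃ c : ℝ, 0 < c ∧ ∀ t : ℂ → ℝ, Sym t →
    (∀ P ∈ Ps, ∑ a ∈ rts P, t a = 0) → ∀ f : ℝ[X], ∃ g : ℤ[X],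
      g.degree < ((dg Ps : ℕ) : WithBot ℕ) ∧
      ∀ a ∈ rs Ps, ‖rv f a - 4 * ev g a‖ ≤ c * Real.exp (t a)

/-- `DIG`: one digit in base `pr Qs` -/
def Stmt_DIG : Prop :=
  ∀ (K : Set ℂ), IsCompact K → (∀ z ∈ K, conj z ∈ K) → ∀ Qs : Finset ℤ[X], Fam Qs → Qs.Nonempty →
    ∃ c : ℝ, 0 < c ∧ ∀ (W : ℤ[X]) (T : ℂ → ℝ) (D : ℕ) (S : ℂ → ℝ) (g : ℂ → ℂ[X]),
      Sym T → (∀ z ∈ K, 0 ≤ T z) → Sym S →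
      (∀ a ∈ rs Qs, (g a).natDegree + dg Qs ≤ D ∧ (g a).eval a = 1 ∧
        ∀ z ∈ K, ‖ev W z‖ * ‖(g a).eval z‖ ≤ Real.exp (S a) * T z) →
      ∀ f : ℝ[X], f.degree < (D : WithBot ℕ) →
        ∃ (u : ℤ[X]) (h f₂ : ℝ[X]), u.degree < ((dg Qs : ℕ) : WithBot ℕ) ∧
          h.degree < (D : WithBot ℕ) ∧ f₂.degree < ((D - dg Qs : ℕ) : WithBot ℕ) ∧
          f = 4 * u.map (Int.castRingHom ℝ) + h + (pr Qs).map (Int.castRingHom ℝ) * f₂ ∧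
          ∀ z ∈ K, ‖ev W z‖ * ‖rv h z‖
            ≤ c * (∑ Q ∈ Qs, Real.exp ((∑ a ∈ rts Q, S a) / Q.natDegree)) * T z

/-- `ETR`: all digits in a mixed base -/
def Stmt_ETR : Prop :=
  ∀ (K : Set ℂ), IsCompact K → (∀ z ∈ K, conj z ∈ K) → ∀ Q1 Q2 : Finset ℤ[X],
    Fam Q1 → Fam Q2 → Q1.Nonempty → Q2.Nonempty →
    ∃ c : ℝ, 0 < c ∧ ∀ (M : ℕ) (R : ℕ → Finset ℤ[X]) (T : ℂ → ℝ) (S : ℕ → ℂ → ℝ)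
      (g : ℕ → ℂ → ℂ[X]),
      (∀ s, R s = Q1 ∨ R s = Q2) → Sym T → (∀ z ∈ K, 0 ≤ T z) → (∀ s, Sym (S s)) →
      (∀ s < M, ∀ a ∈ rs (R s),
        (g s a).natDegree + dg (R s) ≤ ∑ i ∈ Finset.Ico s M, dg (R i) ∧
        (g s a).eval a = 1 ∧
        ∀ z ∈ K, ‖ev (∏ i ∈ Finset.range s, pr (R i)) z‖ * ‖(g s a).eval z‖
          ≤ Real.exp (S s a) * T z) →
      ∀ f : ℝ[X], f.degree < ((∑ i ∈ Finset.range M, dg (R i) : ℕ) : WithBot ℕ) →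
        ∃ (u : ℤ[X]) (h : ℝ[X]),
          u.degree < ((∑ i ∈ Finset.range M, dg (R i) : ℕ) : WithBot ℕ) ∧
          f = 4 * u.map (Int.castRingHom ℝ) + h ∧
          ∀ z ∈ K, ‖rv h z‖ ≤ c * (∑ s ∈ Finset.range M, ∑ Q ∈ R s,
            Real.exp ((∑ a ∈ rts Q, S s a) / Q.natDegree)) * T z

/-- `TOPP`: the top digits -/
def Stmt_TOPP : Prop :=
  ∀ (n m : ℕ) (H : ℤ[X]) (p : ℝ[X]) (B : ℕ → ℝ[X]), m < n → H.Monic → H.natDegree = n - m →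
    p.Monic → p.natDegree = n → (∀ i ∈ Finset.Icc 1 m, (B i).Monic ∧ (B i).natDegree = n - i) →
    ∃ (t : ℕ → ℝ) (v : ℤ[X]), (∀ i, |t i| ≤ 2) ∧ v.degree < (m : WithBot ℕ) ∧
      (p + ∑ i ∈ Finset.Icc 1 m, C (t i) * B i - X ^ n - 2
        - 4 * (H * v).map (Int.castRingHom ℝ)).degree < ((n - m : ℕ) : WithBot ℕ)

/-- `MAXP`: the maximum principle in the exterior domain -/
def Stmt_MAXP : Prop :=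
  ∀ (K : Set ℂ) (T : ℂ → ℝ) (f p : ℂ[X]), IsCompact K → Continuous T → f.degree < p.degree →
    (∀ z, 0 < T z) → (∀ z, z ∉ K → T z = ‖p.eval z‖) → (∀ z ∈ K, ‖f.eval z‖ ≤ 1 / 2 * T z) →
    ∀ z, z ∉ K → ‖f.eval z‖ ≤ 1 / 2 * ‖p.eval z‖

/-- `EIS`: Eisenstein polynomials at 2 -/
def Stmt_EIS : Prop :=
  ∀ (n : ℕ) (G : ℤ[X]), 1 ≤ n → G.degree < (n : WithBot ℕ) →
    (X ^ n + 2 + 4 * G : ℤ[X]).Monic ∧ (X ^ n + 2 + 4 * G : ℤ[X]).natDegree = n ∧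
    Irreducible (X ^ n + 2 + 4 * G : ℤ[X]) ∧ 2 ≤ |(X ^ n + 2 + 4 * G : ℤ[X]).coeff 0|

/-- block functions: `T` is attained at every point by a polynomial of degree at most `D` -/
def Blk (D : ℕ) (T : ℂ → ℝ) : Prop :=
  Continuous T ∧ (∀ z, 0 < T z) ∧
    ∀ ζ, ∃ g : ℂ[X], g.natDegree ≤ D ∧ (∀ z, ‖g.eval z‖ ≤ T z) ∧ ‖g.eval ζ‖ = T ζ

/-- `ETG`: the existence theorem, abstract form -/
def Stmt_ETG : Prop :=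
  ∀ (K : Set ℂ) (Ps : Finset ℤ[X]) (k e D m : ℕ) (TP TO : ℂ → ℝ) (p : ℂ[X]) (r lam A A1 om : ℝ),
    IsCompact K → (∀ z ∈ K, conj z ∈ K) → Fam Ps → Ps.Nonempty →
    1 ≤ k → D ≤ k * dg Ps → k * dg Ps ≤ D + m → 0 < r → r ≤ 1 →
    Blk D TP → Sym TP → Continuous TO → (∀ z, 0 < TO z) → Sym TO → 0 ≤ lam → 0 ≤ A →
    (∀ z ∈ K, ‖ev (pr Ps) z‖ ^ k ≤ Real.exp lam * TP z) → (∀ z ∈ K, Real.exp om ≤ TO z) →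
    (∀ P ∈ Ps, -(A * P.natDegree) ≤ ∑ a ∈ rts P, Real.log (TP a)) → max A lam + 1 ≤ om →
    (e ≠ 0 → A1 ≤ Real.log (TP 1) ∧ e * Real.log (1 / r) + 1 ≤ A1 + om) →
    p.Monic → p.natDegree = D + m + e → RealP p →
    (∀ z ∈ K, ‖p.eval z‖ ≤ TP z * TO z * (max ‖z - 1‖ r) ^ e) →
    (∀ z, z ∉ K → ‖p.eval z‖ = TP z * TO z * (max ‖z - 1‖ r) ^ e) →
    (∀ N : ℕ, 1 ≤ N → ∀ i ∈ Finset.Icc 1 (N * (D + m - k * dg Ps)),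
      ∃ B : ℂ[X], B.Monic ∧ RealP B ∧ B.natDegree = N * (D + m + e) - i ∧
        ∀ z ∈ K, ‖B.eval z‖ ≤ (1 / 10 : ℝ) ^ i * (TP z * TO z * (max ‖z - 1‖ r) ^ e) ^ N) →
    ∀ N₀ : ℕ, ∃ N : ℕ, N₀ ≤ N ∧ ∃ F : ℤ[X], F.Monic ∧ F.natDegree = N * (D + m + e) ∧
      Irreducible F ∧ 2 ≤ |F.coeff 0| ∧ (∀ z, ev F z = 0 → z ∈ K) ∧
      ∀ z, ‖ev F z‖ ≤ 3 / 2 * (TP z * TO z * (max ‖z - 1‖ r) ^ e) ^ N

/-! ### Part B: the form used in the applications -/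

/-- `ACHV`: from sequences of polynomials to `Ach` -/
def Stmt_ACHV : Prop :=
  ∀ (θ : ℝ) (n₁ : ℕ) (T : ℂ → ℝ), 1 ≤ n₁ → Continuous T → (∀ z, 0 < T z) →
    (∀ N₀ : ℕ, ∃ N : ℕ, N₀ ≤ N ∧ ∃ F : ℤ[X], F.Monic ∧ F.natDegree = N * n₁ ∧
      Irreducible F ∧ 2 ≤ |F.coeff 0| ∧ (∀ z, ev F z = 0 → |z.arg| ≤ θ) ∧
      ∀ z, ‖ev F z‖ ≤ 3 / 2 * T z ^ N) →
    Ach θ (ca (fun z => Real.log (T z)) / n₁)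

/-- a piece -/
noncomputable def pc (p b c z : ℂ) : ℝ := max ‖z - p‖ ‖b * z + c‖

/-- `ETP`: the existence theorem for products of pieces -/
def Stmt_ETP : Prop :=
  ∀ (θ : ℝ) (Ps : Finset ℤ[X]) (σ : Type) [DecidableEq σ] (S : Finset σ) (p b c : σ → ℂ) (n : σ → ℕ)
    (τ : σ → σ) (J : Finset ℕ) (q R : ℕ → ℝ) (m : ℕ → ℕ) (k e : ℕ) (r rK lam A A1 om : ℝ)
    (κ : σ → ℝ) (κ' : ℕ → ℝ) (κe : ℝ),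
    Fam Ps → Ps.Nonempty →
    (∀ i ∈ S, τ i ∈ S ∧ τ (τ i) = i ∧ p (τ i) = conj (p i) ∧ b (τ i) = conj (b i) ∧
      c (τ i) = conj (c i) ∧ n (τ i) = n i) →
    (∀ i ∈ S, ‖b i‖ < 1) → (∀ i ∈ S, ∀ z, 0 < pc (p i) (b i) (c i) z) →
    (∀ i ∈ S, ∀ z, ‖z - p i‖ ≤ ‖b i * z + c i‖ → |z.arg| ≤ θ ∧ ‖z‖ ≤ rK) →
    (∀ j ∈ J, 10 ≤ R j) → (∀ j ∈ J, ∀ z : ℂ, ‖z - q j‖ ≤ R j → |z.arg| ≤ θ ∧ ‖z‖ ≤ rK) →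
    0 < r → r ≤ 1 → (e ≠ 0 → ∀ z : ℂ, ‖z - 1‖ ≤ r → |z.arg| ≤ θ ∧ ‖z‖ ≤ rK) →
    1 ≤ k → ∑ i ∈ S, n i ≤ k * dg Ps →
    k * dg Ps ≤ ∑ i ∈ S, n i + ∑ j ∈ J, m j →
    (∀ z : ℂ, ‖z‖ ≤ rK →
      ‖ev (pr Ps) z‖ ^ k ≤ Real.exp lam * ∏ i ∈ S, pc (p i) (b i) (c i) z ^ n i) →
    (∀ z : ℂ, ‖z‖ ≤ rK → Real.exp om ≤ ∏ j ∈ J, (max ‖z - q j‖ (R j)) ^ m j) →
    0 ≤ lam → 0 ≤ A →
    (∀ P ∈ Ps, -(A * P.natDegree) ≤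
      ∑ a ∈ rts P, Real.log (∏ i ∈ S, pc (p i) (b i) (c i) a ^ n i)) →
    max A lam + 1 ≤ om →
    (e ≠ 0 → A1 ≤ Real.log (∏ i ∈ S, pc (p i) (b i) (c i) 1 ^ n i) ∧
      e * Real.log (1 / r) + 1 ≤ A1 + om) →
    (∀ i ∈ S, ca (fun z => Real.log (pc (p i) (b i) (c i) z)) ≤ κ i) →
    (∀ j ∈ J, ca (fun z => Real.log (max ‖z - q j‖ (R j))) ≤ κ' j) →
    (e ≠ 0 → ca (fun z => Real.log (max ‖z - 1‖ r)) ≤ κe) →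
    Ach θ ((∑ i ∈ S, n i * κ i + ∑ j ∈ J, m j * κ' j + e * κe) /
      ((∑ i ∈ S, n i + ∑ j ∈ J, m j + e : ℕ) : ℝ))

/-- `COST`: cost of a disc -/
def Stmt_COST : Prop :=
  ∀ (p : ℂ) (t : ℝ), 0 < t → t ≤ ‖p‖ / 4 →
    ca (fun z => Real.log (max ‖z - p‖ t)) ≤ Real.posLog ‖p‖ + 2 * t / ‖p‖

/-- direction in which a conjugate is moved -/
noncomputable def dir (a : ℂ) : ℂ := if 0 < a.im then Complex.I else if a.im < 0 then -Complex.I else 1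

/-- the reflected point -/
noncomputable def ast (s ρ : ℝ) (a : ℂ) : ℂ := a * (1 - ((1 - ρ ^ 2) * s / ρ : ℝ) * dir a)

/-- `GEO`: the disc `|z - a*| ≤ ρ |z - a|` lies in a smaller sector -/
def Stmt_GEO : Prop :=
  ∀ θ₀ : ℝ, 0 < θ₀ → θ₀ < Real.pi → ∃ s₁ : ℝ, 0 < s₁ ∧ s₁ ≤ 1 / 16 ∧
    ∀ s ρ θ θ' : ℝ, 0 < s → s ≤ s₁ → 1 / 2 ≤ ρ → ρ < 1 → θ₀ ≤ θ → θ' < Real.pi →
      θ' ≤ θ + s * (1 - ρ) / 4 → ∀ a : ℂ, a ≠ 0 → |a.arg| ≤ θ' →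
      ∀ z : ℂ, ‖z - ast s ρ a‖ ≤ ρ * ‖z - a‖ →
        |z.arg| ≤ θ ∧ ‖z‖ ≤ 2 * ‖a‖ ∧ ρ * ‖z - a‖ ≤ 2 * s * ‖a‖

/-- `TR0`: transfer from a sector to a slightly smaller sector, with explicit loss -/
def Stmt_TR0 : Prop :=
  ∀ θ₀ : ℝ, 0 < θ₀ → θ₀ < Real.pi → ∃ C₀ s₁ : ℝ, 0 < C₀ ∧ 0 < s₁ ∧ s₁ ≤ 1 / 16 ∧
    ∀ s ρ θ θ' : ℝ, 0 < s → s ≤ s₁ → 1 / 2 ≤ ρ → ρ < 1 → θ₀ ≤ θ → θ < Real.pi → θ' < Real.pi →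
      θ' ≤ θ + s * (1 - ρ) / 4 → ∀ Ps : Finset ℤ[X], Ps.Nonempty → (∀ P ∈ Ps, Adm θ' P) →
      Ach θ ((∑ P ∈ Ps, Real.log (MM P)) / dg Ps + 10 * s
        + C₀ * (dg Ps * (1 - ρ) + Real.log (1 / (s * (1 - ρ))) + 1) / dg Ps)

/-- `POL`: up to a polynomial factor, the essential constant bounds all Mahler measures, and
this for whole families -/
def Stmt_POL : Prop :=
  ∀ θ₀ : ℝ, 0 < θ₀ → θ₀ < Real.pi → ∃ k : ℝ, 0 < k ∧ ∀ θ : ℝ, θ₀ ≤ θ → θ < Real.pi →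
    ∀ Ps : Finset ℤ[X], Ps.Nonempty → (∀ P ∈ Ps, Adm θ P) →
      Ach θ ((∑ P ∈ Ps, Real.log (MM P) + k * Real.log (dg Ps + 1)) / dg Ps)

/-- `CNT`: continuity -/
def Stmt_CNT : Prop :=
  ∀ θ₀ θ₁ : ℝ, 0 < θ₀ → θ₀ < θ₁ → θ₁ < Real.pi → ∀ η : ℝ, 0 < η → ∃ δ : ℝ, 0 < δ ∧ ∃ D : ℕ,
    ∀ θ : ℝ, θ₀ ≤ θ → θ ≤ θ₁ → ∀ P : ℤ[X], Adm (θ + δ) P → D ≤ P.natDegree → Ach θ (lv P + η)

/-! ### Part C: strict monotonicity -/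

/-- `ADSC`: analytic discs through `a` and `1` -/
def Stmt_ADSC : Prop :=
  ∀ θ θ₁ c c' κ₂ : ℝ, 0 < θ → θ < θ₁ → θ₁ < Real.pi → 0 < c → c ≤ c' → 0 < κ₂ →
    ∃ η : ℝ, 0 < η ∧ η < 1 ∧ ∃ φ : ℂ → ℂ → ℂ, ∀ a : ℂ, |a.arg| ≤ θ → c ≤ Real.log ‖a‖ →
      Real.log ‖a‖ ≤ c' →
      AnalyticOnNhd ℂ (φ a) (Metric.closedBall 0 1) ∧ φ a 0 = a ∧
      (∀ w ∈ Metric.closedBall (0 : ℂ) 1, 1 / 2 ≤ ‖φ a w‖ ∧ |(φ a w).arg| ≤ θ₁ ∧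
        φ (conj a) (conj w) = conj (φ a w)) ∧
      φ a ((1 / (1 + η) : ℝ) : ℂ) = 1 ∧
      ca (fun w => Real.posLog ‖φ a w‖) ≤ Real.log ‖a‖ + κ₂ * η

/-- `JEN`: Jensen's inequality -/
def Stmt_JEN : Prop :=
  ∀ f : ℂ → ℂ, AnalyticOnNhd ℂ f (Metric.closedBall 0 1) → f 0 ≠ 0 →
    Real.log ‖f 0‖ ≤ ca (fun w => Real.log ‖f w‖) ∧
    ∀ w₀ : ℂ, w₀ ≠ 0 → ‖w₀‖ < 1 → f w₀ = 0 →
      Real.log ‖f 0‖ + Real.log (1 / ‖w₀‖) ≤ ca (fun w => Real.log ‖f w‖)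

/-- the `k` points on the boundary curve -/
noncomputable def bp (φ : ℂ → ℂ) (k j : ℕ) : ℂ := φ (Complex.exp (2 * Real.pi * Complex.I * j / k))

/-- `RSUM`: Riemann sums -/
def Stmt_RSUM : Prop :=
  ∀ φ : ℂ → ℂ, AnalyticOnNhd ℂ φ (Metric.closedBall 0 1) → ∀ t ℓ : ℝ, 0 < t → 0 < ℓ →
    ∃ k₀ : ℕ, 1 ≤ k₀ ∧ ∀ k : ℕ, k₀ ≤ k →
      (∀ z : ℂ, ‖z - φ 0‖ ^ k
        ≤ Real.exp (ℓ * k) * ∏ j ∈ Finset.range k, max ‖z - bp φ k j‖ t) ∧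
      (∀ w₀ : ℂ, w₀ ≠ 0 → ‖w₀‖ < 1 → φ w₀ = 1 → (‖1 - φ 0‖ / ‖w₀‖) ^ k
        ≤ Real.exp (ℓ * k) * ∏ j ∈ Finset.range k, max ‖1 - bp φ k j‖ t) ∧
      ∑ j ∈ Finset.range k, Real.posLog ‖bp φ k j‖
        ≤ k * (ca (fun w => Real.posLog ‖φ w‖) + ℓ)

/-- `GEO2`: small discs stay in a larger sector -/
def Stmt_GEO2 : Prop :=
  ∀ θ θ' : ℝ, 0 < θ → θ < θ' → θ' < Real.pi → ∃ s₁ : ℝ, 0 < s₁ ∧ s₁ ≤ 1 / 16 ∧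
    ∀ a z : ℂ, a ≠ 0 → |a.arg| ≤ θ → ‖z - a‖ ≤ s₁ * ‖a‖ → |z.arg| ≤ θ'

/-- `BIG`: a large disc in the sector -/
def Stmt_BIG : Prop :=
  ∀ θ : ℝ, 0 < θ → θ < Real.pi → ∃ b : ℝ, 10 < b ∧ (∀ z : ℂ, ‖z - b‖ ≤ 10 → |z.arg| ≤ θ ∧ ‖z‖ ≤ 2 * b) ∧
    ca (fun z => Real.log (max ‖z - b‖ 10)) ≤ Real.log (2 * b)

/-- conjugates of moderate size -/
noncomputable def gd (c c' : ℝ) (P : ℤ[X]) : Finset ℂ :=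
  (rts P).filter (fun a => c < Real.log ‖a‖ ∧ Real.log ‖a‖ ≤ c')

/-- large conjugates -/
noncomputable def lg (c' : ℝ) (P : ℤ[X]) : Finset ℂ := (rts P).filter (fun a => c' < Real.log ‖a‖)

/-- `ST1A`: existence theorem with a gain at the point 1, all parameters explicit -/
def Stmt_ST1A : Prop :=
  ∀ θ θ' c c' : ℝ, 0 < θ → θ < θ' → θ' < Real.pi → 0 < c → c ≤ c' →
    ∃ s₀ b : ℝ, 0 < s₀ ∧ s₀ ≤ 1 / 16 ∧ 10 < b ∧ ∀ κ₂ : ℝ, 0 < κ₂ → ∃ η : ℝ, 0 < η ∧ η < 1 ∧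
    ∀ s t r : ℝ, 0 < s → s ≤ s₀ → 0 < t → t ≤ s₀ → 0 < r → r ≤ s₀ →
    ∃ σ₀ : ℝ, 0 < σ₀ ∧ σ₀ < 1 ∧ ∀ P : ℤ[X], Adm θ P → ∀ ℓ : ℝ, 0 < ℓ →
    ∃ k₀ : ℕ, 1 ≤ k₀ ∧ ∀ k e m : ℕ, k₀ ≤ k →
      e * Real.log (1 / r) ≤ k * (gd c c' P).card * (Real.log (1 + η) - ℓ) →
      k * (Real.log (1 / σ₀) + ℓ * P.natDegree) + 1 ≤ m * Real.log 10 →
      Ach θ' ((k * (P.natDegree * lv P + (gd c c' P).card * (κ₂ * η + ℓ + 4 * t)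
          + 2 * s * P.natDegree) + e * (2 * r) + m * Real.log (2 * b))
        / ((k * P.natDegree + e + m : ℕ) : ℝ))

/-- `STR1`: improvement if the conjugates of moderate size carry a part of the Mahler measure -/
def Stmt_STR1 : Prop :=
  ∀ θ θ' L c' : ℝ, 0 < θ → θ < θ' → θ' < Real.pi → 0 < L → L ≤ 1 → 1 ≤ c' →
    ∃ γ : ℝ, 0 < γ ∧ ∃ D : ℕ, ∀ P : ℤ[X], Adm θ P → D ≤ P.natDegree → L ≤ lv P →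
      L / 3 * P.natDegree ≤ ∑ a ∈ gd (L / 3) c' P, Real.log ‖a‖ →
      Ach θ' (lv P - γ)

/-- `FAR`: two large discs -/
def Stmt_FAR : Prop :=
  ∀ θ : ℝ, 0 < θ → θ < Real.pi → ∃ c : ℝ, 0 < c ∧ ∀ q : ℕ, 2 ≤ q →
    ∃ b₁ R₁ b₂ R₂ W₀ : ℝ, 10 ≤ R₁ ∧ 10 ≤ R₂ ∧ 1 ≤ W₀ ∧
      (∀ z : ℂ, ‖z - b₁‖ ≤ R₁ → |z.arg| ≤ θ ∧ ‖z‖ ≤ 2 * b₁) ∧
      (∀ z : ℂ, ‖z - b₂‖ ≤ R₂ → |z.arg| ≤ θ ∧ ‖z‖ ≤ 2 * b₂) ∧ b₁ ≤ b₂ ∧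
      (∀ z : ℂ, W₀ ≤ Real.log (max ‖z - b₁‖ R₁) + (q - 1) * Real.log (max ‖z - b₂‖ R₂)) ∧
      ca (fun z => Real.log (max ‖z - b₁‖ R₁))
        + (q - 1) * ca (fun z => Real.log (max ‖z - b₂‖ R₂)) ≤ W₀ + c

/-- `ST2A`: existence theorem in which the large conjugates are replaced by the discs of `FAR`,
all parameters explicit -/
def Stmt_ST2A : Prop :=
  ∀ θ θ' : ℝ, 0 < θ → θ < θ' → θ' < Real.pi → ∃ s₀ : ℝ, 0 < s₀ ∧ s₀ ≤ 1 / 16 ∧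
    ∀ s : ℝ, 0 < s → s ≤ s₀ → ∀ (q : ℕ) (b₁ R₁ b₂ R₂ W₀ c c' : ℝ), 2 ≤ q → 10 ≤ R₁ → 10 ≤ R₂ →
      1 ≤ W₀ → 0 < c → (∀ z : ℂ, ‖z - b₁‖ ≤ R₁ → |z.arg| ≤ θ' ∧ ‖z‖ ≤ 2 * b₁) →
      (∀ z : ℂ, ‖z - b₂‖ ≤ R₂ → |z.arg| ≤ θ' ∧ ‖z‖ ≤ 2 * b₂) → b₁ ≤ b₂ →
      (∀ z : ℂ, W₀ ≤ Real.log (max ‖z - b₁‖ R₁) + (q - 1) * Real.log (max ‖z - b₂‖ R₂)) →
      ca (fun z => Real.log (max ‖z - b₁‖ R₁))
        + (q - 1) * ca (fun z => Real.log (max ‖z - b₂‖ R₂)) ≤ W₀ + c →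
      1 ≤ c' → Real.log b₂ ≤ c' → ∀ P : ℤ[X], Adm θ P → ∀ B : ℕ,
      (∑ a ∈ lg c' P, Real.log ‖a‖) + (lg c' P).card * (lv P + 2) + Real.log (1 / s)
        + (∑ a ∈ lg c' P, Real.log ‖a‖) / P.natDegree + 1 ≤ B * W₀ →
      (lg c' P).card ≤ q * B →
      Ach θ' ((P.natDegree * lv P - ∑ a ∈ lg c' P, Real.log ‖a‖ + 2 * s * P.natDegree
        + B * (W₀ + c)) / (P.natDegree - (lg c' P).card + q * B : ℝ))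

/-- `STR2`: improvement if the large conjugates carry a part of the Mahler measure -/
def Stmt_STR2 : Prop :=
  ∀ θ θ' L b : ℝ, 0 < θ → θ < θ' → θ' < Real.pi → 0 < L → L ≤ 1 → 1 ≤ b →
    ∃ c' γ : ℝ, 1 ≤ c' ∧ 0 < γ ∧ ∃ D : ℕ, ∀ P : ℤ[X], Adm θ P → D ≤ P.natDegree → L ≤ lv P →
      lv P ≤ b →
      L / 3 * P.natDegree ≤ ∑ a ∈ lg c' P, Real.log ‖a‖ →
      Ach θ' (lv P - γ)

/-- `STR`: strict monotonicity -/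
def Stmt_STR : Prop :=
  ∀ θ θ' L b : ℝ, 0 < θ → θ < θ' → θ' < Real.pi → 0 < L →
    ∃ γ : ℝ, 0 < γ ∧ ∃ D : ℕ, ∀ P : ℤ[X], Adm θ P → D ≤ P.natDegree → L ≤ lv P → lv P ≤ b →
      Ach θ' (lv P - γ)

/-! ### Part D: lower bounds -/

/-- `FEK`: small integer polynomials on intervals shorter than 4 -/
def Stmt_FEK : Prop :=
  ∀ L : ℝ, 0 < L → L < 4 → ∃ q : ℤ[X], q ≠ 0 ∧
    ∀ y : ℝ, 0 ≤ y → y ≤ L → |(q.map (Int.castRingHom ℝ)).eval y| ≤ 1 / 2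

/-- `ARC`: small integer polynomials on arcs -/
def Stmt_ARC : Prop :=
  ∀ θ : ℝ, 0 < θ → θ < Real.pi → ∃ Q : ℤ[X], Q ≠ 0 ∧
    ∀ z : ℂ, ‖z‖ = 1 → |z.arg| ≤ θ → ‖ev Q z‖ ≤ 1 / 2

/-- `LAN`: Langevin's theorem for sectors -/
def Stmt_LAN : Prop :=
  ∀ θ : ℝ, 0 < θ → θ < Real.pi → ∃ L : ℝ, 0 < L ∧ ∀ P : ℤ[X], Adm θ P → L ≤ lv P

/-- `ZER`: the first stair has positive length -/
def Stmt_ZER : Prop :=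
  ∃ ε : ℝ, 0 < ε ∧ ε < Real.pi ∧ ∀ P : ℤ[X], Adm ε P → Real.log ((1 + √5) / 2) ≤ lv P

/-- `GOL`: the golden ratio is attained at `θ = 0` -/
def Stmt_GOL : Prop :=
  Adm 0 (X ^ 2 - 3 * X + 1) ∧ lv (X ^ 2 - 3 * X + 1) = Real.log ((1 + √5) / 2)

/-! ### Part E: the structure theorem -/

/-- `LEP`: properties of the essential constant -/
def Stmt_LEP : Prop :=
  (∀ θ : ℝ, 0 < θ → θ < Real.pi → 0 < lec θ ∧ Ach θ (lec θ) ∧ ∀ x, Ach θ x → lec θ ≤ x) ∧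
  ContinuousOn lec (Set.Ioo 0 Real.pi) ∧ StrictAntiOn lec (Set.Ioo 0 Real.pi) ∧
  (∀ θ : ℝ, 0 < θ → θ < Real.pi → ∀ x : ℝ, x < lec θ → {P : ℤ[X] | Adm θ P ∧ lv P ≤ x}.Finite) ∧
  (∀ θ₀ : ℝ, 0 < θ₀ → θ₀ < Real.pi → ∃ k : ℝ, 0 < k ∧ ∀ θ : ℝ, θ₀ ≤ θ → θ < Real.pi →
    ∀ Ps : Finset ℤ[X], (∀ P ∈ Ps, Adm θ P) →
      lec θ * dg Ps ≤ ∑ P ∈ Ps, Real.log (MM P) + k * Real.log (dg Ps + 1))

/-- nonzero algebraic integers, no roots of unity, with all conjugates in the sector -/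
def IsSec (θ : ℝ) (α : ℂ) : Prop :=
  IsIntegral ℤ α ∧ α ≠ 0 ∧ (∀ n : ℕ, 0 < n → α ^ n ≠ 1) ∧
    ∀ β : ℂ, aeval β (minpoly ℤ α) = 0 → |β.arg| ≤ θ

/-- `M(α)^(1/deg α)` -/
noncomputable def nM (α : ℂ) : ℝ :=
  ((minpoly ℤ α).map (Int.castRingHom ℂ)).mahlerMeasure ^ (1 / ((minpoly ℤ α).natDegree : ℝ))

/-- `c_θ` -/
noncomputable def cth (θ : ℝ) : ℝ := sInf (nM '' {α | IsSec θ α})

/-- staircase functions on `[a, b)` -/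
def Stair (c : ℝ → ℝ) (a b : ℝ) : Prop :=
  ∃ I : Set (ℝ × ℝ), I.Countable ∧ (∀ u ∈ I, u.1 < u.2) ∧
    (⋃ u ∈ I, Set.Ico u.1 u.2) = Set.Ico a b ∧
    (I.PairwiseDisjoint fun u => Set.Ico u.1 u.2) ∧
    ∀ u ∈ I, ∀ x ∈ Set.Ico u.1 u.2, ∀ y ∈ Set.Ico u.1 u.2, c x = c y

/-- `TRL`: translation between algebraic integers and polynomials -/
def Stmt_TRL : Prop :=
  (∀ θ α, IsSec θ α → Adm θ (minpoly ℤ α) ∧ nM α = Real.exp (lv (minpoly ℤ α)) ∧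
    α ∈ rts (minpoly ℤ α)) ∧
  (∀ θ P, Adm θ P → (rts P).Nonempty ∧ ∀ α ∈ rts P, IsSec θ α ∧ minpoly ℤ α = P)

/-- `SCR`: staircase functions and local constancy -/
def Stmt_SCR : Prop :=
  ∀ (c : ℝ → ℝ) (a b : ℝ), AntitoneOn c (Set.Ico a b) →
    (Stair c a b ↔ ∀ θ ∈ Set.Ico a b, ∃ ε : ℝ, 0 < ε ∧ θ + ε ≤ b ∧
      ∀ θ' ∈ Set.Ico θ (θ + ε), c θ' = c θ)

/-- `FIN`: the theorem -/
def Stmt_FIN : Prop :=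
  ∃ C : ℝ → ℝ, ContinuousOn C (Set.Ioo 0 Real.pi) ∧ StrictAntiOn C (Set.Ioo 0 Real.pi) ∧
    (∀ θ ∈ Set.Ioo 0 Real.pi, 1 < cth θ ∧ cth θ ≤ C θ ∧
      (∀ v < C θ, {α | IsSec θ α ∧ nM α ≤ v}.Finite) ∧
      (∀ v > C θ, {α | IsSec θ α ∧ nM α < v}.Infinite) ∧
      ((∃ ε : ℝ, 0 < ε ∧ ∀ θ' ∈ Set.Ico θ (θ + ε), cth θ' = cth θ) ↔ cth θ < C θ)) ∧
    (∀ θ₀ ∈ Set.Ioo 0 Real.pi, ∃ k : ℝ, 0 < k ∧ ∀ θ ∈ Set.Ico θ₀ Real.pi, ∀ A : Finset ℂ,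
      (∀ α ∈ A, IsSec θ α) → (∀ α ∈ A, ∀ β ∈ A, minpoly ℤ α = minpoly ℤ β → α = β) →
      (∑ α ∈ A, (minpoly ℤ α).natDegree * (Real.log (C θ) - Real.log (nM α))
        ≤ k * Real.log (1 + ∑ α ∈ A, (minpoly ℤ α).natDegree)) ∧
      ∀ δ : ℝ, 0 < δ → δ ≤ 1 → (∀ α ∈ A, nM α ≤ Real.exp (-δ) * C θ) →
        ∑ α ∈ A, ((minpoly ℤ α).natDegree : ℝ) ≤ k * Real.log (2 / δ) / δ) ∧
    (∀ θ ∈ Set.Ico 0 Real.pi, ContinuousWithinAt cth (Set.Ici θ) θ) ∧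
    (∀ a b : ℝ, 0 < a → a < b → b ≤ Real.pi →
      (Stair cth a b ↔ ∀ θ ∈ Set.Ico a b, cth θ < C θ)) ∧
    (Stair cth 0 Real.pi ↔ ∀ θ ∈ Set.Ioo 0 Real.pi, cth θ < C θ)

end Pool.Agent.Work.MP_ce2d68_st
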